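import Mathlib

/-! Sharply 2-transitive groups of characteristic different from 2: all products of two distinct
involutions are conjugate, and conjugate to their squares. -/

set_option autoImplicit false

namespace Pool.Agent.Helper14.S2T

universe u v

variable {G : Type u} [Group G] {X : Type v} [MulAction G X]

/-- an element with two fixed points is trivial -/
theorem eq_one_of_two
    (h2 : ∀ x₁ x₂ y₁ y₂ : X, x₁ ≠ x₂ → y₁ ≠ y₂ → ∃! g : G, g • x₁ = y₁ ∧ g • x₂ = y₂)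
    {g : G} {x y : X} (hxy : x ≠ y) (hx : g • x = x) (hy : g • y = y) : g = 1 :=
  (h2 x y x y hxy hxy).unique ⟨hx, hy⟩ ⟨one_smul _ _, one_smul _ _⟩

/-- two elements that agree at two points are equal -/
theorem eq_of_two
    (h2 : ∀ x₁ x₂ y₁ y₂ : X, x₁ ≠ x₂ → y₁ ≠ y₂ → ∃! g : G, g • x₁ = y₁ ∧ g • x₂ = y₂)
    {g h : G} {x y : X} (hxy : x ≠ y) (hx : g • x = h • x) (hy : g • y = h • y) : g = h := by
  have hne : h • x ≠ h • y := fun e => hxy ((MulAction.injective h) e)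
  exact (h2 x y (h • x) (h • y) hxy hne).unique ⟨hx, hy⟩ ⟨rfl, rfl⟩

/-- a nontrivial element moves some point -/
theorem exists_moved
    (h2 : ∀ x₁ x₂ y₁ y₂ : X, x₁ ≠ x₂ → y₁ ≠ y₂ → ∃! g : G, g • x₁ = y₁ ∧ g • x₂ = y₂)
    (hX : Nontrivial X) {g : G} (hg : g ≠ 1) : ∃ x : X, g • x ≠ x := by
  by_contra hcon
  push Not at hcon
  obtain ⟨x, y, hxy⟩ := hX.exists_pair_ne
  exact hg (eq_one_of_two h2 hxy (hcon x) (hcon y))

/-- any two involutions are conjugate, by an element carrying given moved pairs -/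
theorem conj_inv
    (h2 : ∀ x₁ x₂ y₁ y₂ : X, x₁ ≠ x₂ → y₁ ≠ y₂ → ∃! g : G, g • x₁ = y₁ ∧ g • x₂ = y₂)
    {i j : G} (hi : i * i = 1) (hj : j * j = 1) {x y : X}
    (hx : i • x ≠ x) (hy : j • y ≠ y) :
    ∃ g : G, g • x = y ∧ g * i * g⁻¹ = j := by
  obtain ⟨g, ⟨h1, h3⟩, -⟩ := h2 x (i • x) y (j • y) (Ne.symm hx) (Ne.symm hy)
  refine ⟨g, h1, ?_⟩
  have e1 : g⁻¹ • y = x := by rw [← h1, inv_smul_smul]
  have e2 : g⁻¹ • (j • y) = i • x := by rw [← h3, inv_smul_smul]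
  refine eq_of_two h2 (Ne.symm hy) ?_ ?_
  · rw [mul_smul, mul_smul, e1, h3]
  · rw [mul_smul, mul_smul, e2, ← mul_smul i i x, hi, one_smul, h1, ← mul_smul j j y, hj, one_smul]

/-- every involution has a fixed point if one does -/
theorem fixed_all
    (h2 : ∀ x₁ x₂ y₁ y₂ : X, x₁ ≠ x₂ → y₁ ≠ y₂ → ∃! g : G, g • x₁ = y₁ ∧ g • x₂ = y₂)
    (hX : Nontrivial X)
    (hc : ∃ g : G, g ≠ 1 ∧ g * g = 1 ∧ ∃ x : X, g • x = x)
    {j : G} (hj1 : j ≠ 1) (hj : j * j = 1) : ∃ x : X, j • x = x := by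
  obtain ⟨i, hi1, hi, z, hz⟩ := hc
  obtain ⟨x, hx⟩ := exists_moved h2 hX hi1
  obtain ⟨y, hy⟩ := exists_moved h2 hX hj1
  obtain ⟨g, -, hg⟩ := conj_inv h2 hi hj hx hy
  refine ⟨g • z, ?_⟩
  rw [← hg, mul_smul, mul_smul, inv_smul_smul, hz]

/-- involutions with the same fixed point are equal -/
theorem inv_unique
    (h2 : ∀ x₁ x₂ y₁ y₂ : X, x₁ ≠ x₂ → y₁ ≠ y₂ → ∃! g : G, g • x₁ = y₁ ∧ g • x₂ = y₂)
    (hX : Nontrivial X) {i j : G} (hi1 : i ≠ 1) (hj1 : j ≠ 1) (hi : i * i = 1) (hj : j * j = 1)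
    {x : X} (hix : i • x = x) (hjx : j • x = x) : i = j := by
  obtain ⟨y, hy⟩ := exists_moved h2 hX hi1
  have hyx : y ≠ x := by
    intro e
    exact hy (by rw [e, hix])
  have hjy : j • y ≠ y := by
    intro e
    exact hj1 (eq_one_of_two h2 hyx e hjx)
  obtain ⟨g, hg, hgc⟩ := conj_inv h2 hi hj hy hjy
  -- g fixes x: j fixes g x, so g x = x
  have h3 : j • (g • x) = g • x := by
    rw [← hgc, mul_smul, mul_smul, inv_smul_smul, hix]
  have h4 : g • x = x := by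
    by_contra hne
    exact hj1 (eq_one_of_two h2 hne h3 hjx)
  have h5 : g = 1 := eq_one_of_two h2 hyx hg h4
  rw [h5] at hgc
  simpa using hgc

/-- products of two distinct involutions are conjugate to their squares -/
theorem conj_sq
    (h2 : ∀ x₁ x₂ y₁ y₂ : X, x₁ ≠ x₂ → y₁ ≠ y₂ → ∃! g : G, g • x₁ = y₁ ∧ g • x₂ = y₂)
    (hX : Nontrivial X)
    (hc : ∃ g : G, g ≠ 1 ∧ g * g = 1 ∧ ∃ x : X, g • x = x)
    {i j : G} (hi1 : i ≠ 1) (hj1 : j ≠ 1) (hi : i * i = 1) (hj : j * j = 1) (hij : i ≠ j) :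
    ∃ k : G, k * (i * j) * k⁻¹ = (i * j) ^ 2 := by
  obtain ⟨x, hx⟩ := fixed_all h2 hX hc hi1 hi
  obtain ⟨y, hy⟩ := fixed_all h2 hX hc hj1 hj
  have hxy : x ≠ y := by
    intro e
    exact hij (inv_unique h2 hX hi1 hj1 hi hj hx (by rw [e, hy]))
  -- j i j fixes j x
  have hjx : j • x ≠ x := by
    intro e
    exact hj1 (eq_one_of_two h2 hxy e hy)
  have hj' : j⁻¹ = j := by
    rw [inv_eq_iff_mul_eq_one]
    exact hj
  have hi' : i⁻¹ = i := by
    rw [inv_eq_iff_mul_eq_one]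
    exact hi
  obtain ⟨k, ⟨hk1, hk2⟩, -⟩ := h2 x y x (j • x) hxy (Ne.symm hjx)
  refine ⟨k, ?_⟩
  have c1 : k * i * k⁻¹ = i := by
    refine inv_unique h2 hX ?_ hi1 ?_ hi (x := x) ?_ hx
    · intro e
      apply hi1
      have : i = k⁻¹ * (k * i * k⁻¹) * k := by group
      rw [this, e]; group
    · have : k * i * k⁻¹ * (k * i * k⁻¹) = k * (i * i) * k⁻¹ := by group
      rw [this, hi]; group
    · have e1 : k⁻¹ • x = x := by
        conv_lhs => rw [← hk1]
        rw [inv_smul_smul]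
      rw [mul_smul, mul_smul, e1, hx, hk1]
  have c2 : k * j * k⁻¹ = j * i * j := by
    refine inv_unique h2 hX ?_ ?_ ?_ ?_ (x := j • x) ?_ ?_
    · intro e
      apply hj1
      have : j = k⁻¹ * (k * j * k⁻¹) * k := by group
      rw [this, e]; group
    · intro e
      apply hi1
      have : i = j⁻¹ * (j * i * j) * j⁻¹ := by group
      rw [this, e, hj', mul_one, hj]
    · have : k * j * k⁻¹ * (k * j * k⁻¹) = k * (j * j) * k⁻¹ := by group
      rw [this, hj]; group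
    · have : j * i * j * (j * i * j) = j * (i * (j * j) * i) * j := by group
      rw [this, hj, mul_one, hi, mul_one, hj]
    · have e1 : k⁻¹ • (j • x) = y := by rw [← hk2, inv_smul_smul]
      rw [mul_smul, mul_smul, e1, hy, hk2]
    · rw [mul_smul, mul_smul, ← mul_smul j j x, hj, one_smul, hx]
  have : k * (i * j) * k⁻¹ = (k * i * k⁻¹) * (k * j * k⁻¹) := by group
  rw [this, c1, c2, pow_two]
  group

/-- there is an involution -/
theorem exists_inv
    (h2 : ∀ x₁ x₂ y₁ y₂ : X, x₁ ≠ x₂ → y₁ ≠ y₂ → ∃! g : G, g • x₁ = y₁ ∧ g • x₂ = y₂)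
    (hX : Nontrivial X) : ∃ i : G, i ≠ 1 ∧ i * i = 1 := by
  obtain ⟨x, y, hxy⟩ := hX.exists_pair_ne
  obtain ⟨g, ⟨h1, h3⟩, -⟩ := h2 x y y x hxy (Ne.symm hxy)
  refine ⟨g, ?_, ?_⟩
  · intro e
    rw [e, one_smul] at h1
    exact hxy h1
  · refine eq_one_of_two h2 hxy ?_ ?_
    · rw [mul_smul, h1, h3]
    · rw [mul_smul, h3, h1]

/-- in a simple group a subgroup containing all involutions is everything -/
theorem closure_inv (hG : IsSimpleGroup G) (hi : ∃ i : G, i ≠ 1 ∧ i * i = 1) :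
    Subgroup.closure {g : G | g * g = 1} = ⊤ := by
  have hn : (Subgroup.closure {g : G | g * g = 1}).Normal := by
    constructor
    intro n hn g
    induction hn using Subgroup.closure_induction with
    | mem x hx =>
      apply Subgroup.subset_closure
      have hx' : x * x = 1 := hx
      show g * x * g⁻¹ * (g * x * g⁻¹) = 1
      have : g * x * g⁻¹ * (g * x * g⁻¹) = g * (x * x) * g⁻¹ := by group
      rw [this, hx']; group
    | one => simp
    | mul x y _ _ hx hy =>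
      have : g * (x * y) * g⁻¹ = (g * x * g⁻¹) * (g * y * g⁻¹) := by group
      rw [this]
      exact mul_mem hx hy
    | inv x _ hx =>
      have : g * x⁻¹ * g⁻¹ = (g * x * g⁻¹)⁻¹ := by group
      rw [this]
      exact inv_mem hx
  rcases hG.eq_bot_or_eq_top_of_normal _ hn with h | h
  · exfalso
    obtain ⟨i, hi1, hi⟩ := hi
    have : i ∈ Subgroup.closure {g : G | g * g = 1} := Subgroup.subset_closure hi
    rw [h, Subgroup.mem_bot] at this
    exact hi1 this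
  · exact h

end Pool.Agent.Helper14.S2T
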