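import Mathlib

/-! Elementary hyperbolic geometry with the four point condition. -/

set_option autoImplicit false

namespace Pool.Agent.Helper14.S2T

universe u w

/-- the Gromov product of `x` and `y` seen from `o` -/
noncomputable def gromovProd {H : Type w} [PseudoMetricSpace H] (o x y : H) : ℝ :=
  (dist o x + dist o y - dist x y) / 2

/-- the four point condition: `H` is Gromov hyperbolic with constant `δ` -/
def FourPoint (H : Type w) [PseudoMetricSpace H] (δ : ℝ) : Prop :=
  ∀ x y z t : H, dist x y + dist z t ≤ max (dist x z + dist y t) (dist x t + dist y z) + 2 * δ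

section metric

variable {H : Type w} [PseudoMetricSpace H]

theorem gp_comm (o x y : H) : gromovProd o x y = gromovProd o y x := by
  unfold gromovProd
  rw [dist_comm x y]; ring

theorem gp_hyp {δ : ℝ} (hδ : FourPoint H δ) (o a b c : H) :
    min (gromovProd o a b) (gromovProd o b c) - δ ≤ gromovProd o a c := by
  have h := hδ a c b o
  unfold gromovProd
  rw [dist_comm a o, dist_comm c o, dist_comm b o, dist_comm c b] at h
  rcases le_total (dist a b + dist o c) (dist o a + dist b c) with h1 | h1
  · rw [max_eq_right h1] at h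
    have := min_le_right ((dist o a + dist o b - dist a b) / 2) ((dist o b + dist o c - dist b c) / 2)
    linarith
  · rw [max_eq_left h1] at h
    have := min_le_left ((dist o a + dist o b - dist a b) / 2) ((dist o b + dist o c - dist b c) / 2)
    linarith

/-- if the product of `a`, `c` is small and that of `a`, `b` is large then that of `b`, `c` is
small -/
theorem gp_small {δ : ℝ} (hδ : FourPoint H δ) {o a b c : H} {R : ℝ}
    (h1 : gromovProd o a c ≤ R) (h2 : R + δ < gromovProd o a b) :
    gromovProd o b c ≤ R + δ := by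
  have h := gp_hyp hδ o a b c
  by_contra hcon
  push Not at hcon
  have : R + δ < min (gromovProd o a b) (gromovProd o b c) := lt_min h2 hcon
  linarith

theorem gp_add (o x y : H) : gromovProd o x y + gromovProd y x o = dist o y := by
  unfold gromovProd
  rw [dist_comm y x, dist_comm y o, dist_comm x o]; ring

theorem gp_base (o p x y : H) : gromovProd p x y - dist o p ≤ gromovProd o x y := by
  unfold gromovProd
  have h1 := dist_triangle p o x
  have h2 := dist_triangle p o y
  rw [dist_comm p o] at h1 h2
  linarith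

theorem gp_left (o x x' y : H) : gromovProd o x y ≤ gromovProd o x' y + dist x x' := by
  unfold gromovProd
  have h1 := dist_triangle o x' x
  have h2 := dist_triangle x' x y
  rw [dist_comm x' x] at h1 h2
  linarith

theorem gp_right (o x y y' : H) : gromovProd o x y ≤ gromovProd o x y' + dist y y' := by
  rw [gp_comm o x y, gp_comm o x y']
  exact gp_left o y y' x

theorem gp_nonneg (o x y : H) : 0 ≤ gromovProd o x y := by
  unfold gromovProd
  have := dist_triangle x o y
  rw [dist_comm x o] at this
  linarith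

/-- a chain of points without backtracking goes to infinity linearly -/
theorem chain {δ : ℝ} (hδ : FourPoint H δ) {C L : ℝ} (x : ℕ → H)
    (hC : ∀ k, gromovProd (x (k + 1)) (x k) (x (k + 2)) ≤ C)
    (hd : 0 ≤ δ) (hL : 2 * C + 2 * δ < L)
    (hx : ∀ k, L ≤ dist (x k) (x (k + 1))) (n : ℕ) :
    (L - 2 * C - 2 * δ) * n ≤ dist (x 0) (x n) := by
  have key : ∀ k, gromovProd (x (k + 1)) (x 0) (x (k + 2)) ≤ C + δ := by
    intro k
    induction k with
    | zero => have := hC 0; simp only [Nat.zero_add] at this ⊢; linarith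
    | succ k ih =>
      have h1 := hC (k + 1)
      have h3 := gp_add (x (k + 2)) (x 0) (x (k + 1))
      have h4 := hx (k + 1)
      have h5 : gromovProd (x (k + 1)) (x 0) (x (k + 2)) ≤ C + δ := ih
      have h6 : C + δ < gromovProd (x (k + 1 + 1)) (x (k + 1)) (x 0) := by
        rw [gp_comm]
        have : dist (x (k + 2)) (x (k + 1)) = dist (x (k + 1)) (x (k + 1 + 1)) := dist_comm _ _
        have h7 : gromovProd (x (k + 1 + 1)) (x 0) (x (k + 1)) =
          gromovProd (x (k + 2)) (x 0) (x (k + 1)) := rfl
        linarith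
      exact gp_small hδ h1 h6
  induction n with
  | zero => simp
  | succ n ih =>
    rcases n with _ | n
    · have h1 := hx 0
      have h2 : 0 ≤ C := le_trans (gp_nonneg _ _ _) (hC 0)
      simp only [Nat.zero_add] at h1 ⊢
      push_cast
      linarith
    · have h1 := key n
      have h2 := hx (n + 1)
      have h3 : gromovProd (x (n + 1)) (x 0) (x (n + 2)) =
        (dist (x (n + 1)) (x 0) + dist (x (n + 1)) (x (n + 2)) - dist (x 0) (x (n + 2))) / 2 := rfl
      rw [dist_comm (x (n + 1)) (x 0)] at h3
      have h4 : dist (x (n + 1)) (x (n + 1 + 1)) = dist (x (n + 1)) (x (n + 2)) := rfl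
      have h5 : dist (x 0) (x (n + 1 + 1)) = dist (x 0) (x (n + 2)) := rfl
      rw [h5]
      push_cast at ih ⊢
      nlinarith

end metric

section act

variable {G : Type u} [Group G] {H : Type w} [PseudoMetricSpace H] [MulAction G H]
  [IsIsometricSMul G H]

theorem gp_smul (s : G) (o x y : H) : gromovProd (s • o) (s • x) (s • y) = gromovProd o x y := by
  unfold gromovProd
  rw [dist_smul, dist_smul, dist_smul]

theorem dist_smul_inv (s : G) (x y : H) : dist x (s • y) = dist (s⁻¹ • x) y := by
  rw [← dist_smul s (s⁻¹ • x) y, smul_inv_smul]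

theorem dist_pow_le (s : G) (o : H) (n : ℕ) : dist o (s ^ n • o) ≤ n * dist o (s • o) := by
  induction n with
  | zero => simp
  | succ n ih =>
    have h1 : dist o (s ^ (n + 1) • o) ≤ dist o (s ^ n • o) + dist (s ^ n • o) (s ^ (n + 1) • o) :=
      dist_triangle _ _ _
    rw [pow_succ, mul_smul, dist_smul] at h1
    rw [pow_succ, mul_smul]
    push_cast
    linarith

/-- an element conjugate to its square has translation length zero -/
theorem no_lin {w k : G} (hk : k * w * k⁻¹ = w ^ 2) (o : H) (c B : ℝ) (hc : 0 < c)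
    (h : ∀ n : ℕ, c * n - B ≤ dist o (w ^ n • o)) : False := by
  -- doubling
  have key : ∀ r : ℕ, ∃ B' : ℝ, ∀ n : ℕ, 2 ^ r * c * n - B' ≤ dist o (w ^ n • o) := by
    intro r
    induction r with
    | zero => exact ⟨B, fun n => by simpa using h n⟩
    | succ r ih =>
      obtain ⟨B', hB'⟩ := ih
      refine ⟨B' + 2 * dist o (k • o), fun n => ?_⟩
      have e1 : w ^ n = k⁻¹ * w ^ (2 * n) * k := by
        have h3 : (k * w * k⁻¹) ^ n = k * w ^ n * k⁻¹ := by
          rw [conj_pow]
        rw [hk, ← pow_mul] at h3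
        rw [h3]; group
      have h4 := hB' (2 * n)
      have h5 : dist o (w ^ (2 * n) • o) ≤ dist o (w ^ n • o) + 2 * dist o (k • o) := by
        have e2 : dist o (w ^ n • o) = dist (k • o) (w ^ (2 * n) • (k • o)) := by
          rw [e1, mul_smul, mul_smul, dist_smul_inv, inv_inv]
        have t1 := dist_triangle o (k • o) (w ^ (2 * n) • o)
        have t2 := dist_triangle (k • o) (w ^ (2 * n) • (k • o)) (w ^ (2 * n) • o)
        rw [dist_smul, dist_comm (k • o) o] at t2
        rw [e2]
        linarith
      push_cast at h4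
      have h6 : (2 : ℝ) ^ (r + 1) * c * n = 2 ^ r * c * (2 * n) := by ring
      rw [h6]
      linarith
  have key2 : ∀ r : ℕ, (2 : ℝ) ^ r * c ≤ dist o (w • o) := by
    intro r
    obtain ⟨B', hB'⟩ := key r
    by_contra hcon
    push Not at hcon
    obtain ⟨n, hn⟩ := exists_nat_gt (B' / (2 ^ r * c - dist o (w • o)))
    have hpos : 0 < (2 : ℝ) ^ r * c - dist o (w • o) := by linarith
    have h1 := (div_lt_iff₀ hpos).mp hn
    have h2 := hB' n
    have h3 := dist_pow_le w o n
    nlinarith
  obtain ⟨r, hr⟩ := pow_unbounded_of_one_lt (dist o (w • o) / c) (one_lt_two)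
  have h1 := (div_lt_iff₀ hc).mp hr
  have h2 := key2 r
  linarith

/-- ping-pong for a product -/
theorem pingpong {δ : ℝ} (hδ : FourPoint H δ) (hd : 0 ≤ δ) {C L : ℝ} (hL : 2 * C + 2 * δ < L)
    {a b : G} {o : H}
    (h1 : gromovProd o (a⁻¹ • o) (b • o) ≤ C) (h2 : gromovProd o (b⁻¹ • o) (a • o) ≤ C)
    (h3 : L ≤ dist o (a • o)) (h4 : L ≤ dist o (b • o)) (n : ℕ) :
    (L - 2 * C - 2 * δ) * n ≤ dist o ((a * b) ^ n • o) := by
  let x : ℕ → H := fun k => if k % 2 = 0 then (a * b) ^ (k / 2) • o
    else ((a * b) ^ (k / 2) * a) • o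
  have xe : ∀ m, x (2 * m) = (a * b) ^ m • o := by
    intro m
    have e1 : (2 * m) % 2 = 0 := by omega
    have e2 : (2 * m) / 2 = m := by omega
    show (if (2 * m) % 2 = 0 then _ else _) = _
    rw [if_pos e1, e2]
  have xo : ∀ m, x (2 * m + 1) = ((a * b) ^ m * a) • o := by
    intro m
    have e1 : ¬ ((2 * m + 1) % 2 = 0) := by omega
    have e2 : (2 * m + 1) / 2 = m := by omega
    show (if (2 * m + 1) % 2 = 0 then _ else _) = _
    rw [if_neg e1, e2]
  have hC : ∀ k, gromovProd (x (k + 1)) (x k) (x (k + 2)) ≤ C := by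
    intro k
    rcases Nat.even_or_odd' k with ⟨m, hm | hm⟩
    · subst hm
      have e : 2 * m + 2 = 2 * (m + 1) := by ring
      rw [xo, xe, e, xe]
      have e1 : (a * b) ^ m • o = ((a * b) ^ m * a) • (a⁻¹ • o) := by
        rw [← mul_smul]; congr 1; group
      have e2 : (a * b) ^ (m + 1) • o = ((a * b) ^ m * a) • (b • o) := by
        rw [← mul_smul]; congr 1; rw [pow_succ]; group
      rw [e1, e2, gp_smul]
      exact h1
    · subst hm
      have e : 2 * m + 1 + 1 = 2 * (m + 1) := by ring
      have e' : 2 * m + 1 + 2 = 2 * (m + 1) + 1 := by ring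
      rw [e, e', xe, xo, xo]
      have e1 : ((a * b) ^ m * a) • o = (a * b) ^ (m + 1) • (b⁻¹ • o) := by
        rw [← mul_smul]; congr 1; rw [pow_succ]; group
      have e2 : ((a * b) ^ (m + 1) * a) • o = (a * b) ^ (m + 1) • (a • o) := by
        rw [← mul_smul]
      rw [e1, e2, gp_smul]
      exact h2
  have hx : ∀ k, L ≤ dist (x k) (x (k + 1)) := by
    intro k
    rcases Nat.even_or_odd' k with ⟨m, hm | hm⟩
    · subst hm
      rw [xo, xe, mul_smul, dist_smul]
      exact h3
    · subst hm
      have e : 2 * m + 1 + 1 = 2 * (m + 1) := by ring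
      rw [e, xe, xo]
      have e1 : (a * b) ^ (m + 1) • o = ((a * b) ^ m * a) • (b • o) := by
        rw [← mul_smul]; congr 1; rw [pow_succ]; group
      rw [e1, dist_smul]
      exact h4
  have h := chain hδ x hC hd hL hx (2 * n)
  rw [xe] at h
  have e0 : x 0 = o := by
    have := xe 0
    simpa using this
  rw [e0] at h
  have hpos : 0 < L - 2 * C - 2 * δ := by linarith
  have hn : (0 : ℝ) ≤ n := Nat.cast_nonneg n
  push_cast at h
  nlinarith

end act

end Pool.Agent.Helper14.S2T
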