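import Pool.Agent.Helper14.S2T.Basic
import Pool.Agent.Helper14.S2T.Hyp

/-! Independent loxodromic elements give two involutions with loxodromic product. -/

set_option autoImplicit false

namespace Pool.Agent.Helper14.S2T

universe u v w

section defs

variable {G : Type u} [Group G] {H : Type w} [PseudoMetricSpace H] [MulAction G H]

/-- `g` is loxodromic: the orbit of `o` under the powers of `g` goes to infinity linearly, i.e.
`g` has positive translation length -/
def Loxodromic (g : G) (o : H) : Prop := ∃ c : ℝ, 0 < c ∧ ∀ n : ℕ, c * n ≤ dist o (g ^ n • o)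

/-- `g` and `h` are independent: the Gromov products of the points of the two orbits
`g ^ m • o` and `h ^ n • o` are bounded (no common fixed point at infinity) -/
def Independent (g h : G) (o : H) : Prop :=
  ∃ C : ℝ, ∀ m n : ℤ, gromovProd o (g ^ m • o) (h ^ n • o) ≤ C

end defs

variable {G : Type u} [Group G] {H : Type w} [PseudoMetricSpace H] [MulAction G H]
  [IsIsometricSMul G H]

/-- the elements that fix the end of the sequence `a n` -/
def endFix {δ : ℝ} (hδ : FourPoint H δ) (o : H) (a : ℕ → H)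
    (ha : ∀ R : ℝ, ∃ N : ℕ, ∀ n ≥ N, R ≤ dist o (a n)) : Subgroup G where
  carrier := {s | ∀ R : ℝ, ∃ N : ℕ, ∀ n ≥ N, R ≤ gromovProd o (a n) (s • a n)}
  one_mem' := by
    intro R
    obtain ⟨N, hN⟩ := ha R
    refine ⟨N, fun n hn => ?_⟩
    have := hN n hn
    rw [one_smul]
    unfold gromovProd
    rw [dist_self]
    linarith
  mul_mem' := by
    intro s t hs ht R
    obtain ⟨N1, h1⟩ := hs (R + δ)
    obtain ⟨N2, h2⟩ := ht (R + δ + dist o (s⁻¹ • o))
    refine ⟨max N1 N2, fun n hn => ?_⟩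
    have e1 := h1 n (le_trans (le_max_left _ _) hn)
    have e2 := h2 n (le_trans (le_max_right _ _) hn)
    have e3 := gp_hyp hδ o (a n) (s • a n) ((s * t) • a n)
    have e4 : gromovProd o (s • a n) ((s * t) • a n) = gromovProd (s⁻¹ • o) (a n) (t • a n) := by
      rw [← gp_smul s (s⁻¹ • o) (a n) (t • a n), smul_inv_smul, mul_smul]
    have e5 := gp_base (s⁻¹ • o) o (a n) (t • a n)
    rw [dist_comm] at e5
    have e6 : R + δ ≤ min (gromovProd o (a n) (s • a n))
        (gromovProd o (s • a n) ((s * t) • a n)) := by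
      apply le_min e1
      rw [e4]
      linarith
    linarith
  inv_mem' := by
    intro s hs R
    obtain ⟨N1, h1⟩ := hs (R + dist o (s • o))
    refine ⟨N1, fun n hn => ?_⟩
    have e1 := h1 n hn
    have e2 : gromovProd o (a n) (s⁻¹ • a n) = gromovProd (s • o) (s • a n) (a n) := by
      rw [← gp_smul s o (a n) (s⁻¹ • a n), smul_inv_smul]
    have e3 := gp_base (s • o) o (s • a n) (a n)
    rw [dist_comm (s • o) o, gp_comm o (s • a n) (a n)] at e3
    show R ≤ gromovProd o (a n) (s⁻¹ • a n)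
    rw [e2]
    linarith

theorem mem_endFix {δ : ℝ} (hδ : FourPoint H δ) (o : H) (a : ℕ → H)
    (ha : ∀ R : ℝ, ∃ N : ℕ, ∀ n ≥ N, R ≤ dist o (a n)) (s : G) :
    s ∈ endFix (G := G) hδ o a ha ↔
      ∀ R : ℝ, ∃ N : ℕ, ∀ n ≥ N, R ≤ gromovProd o (a n) (s • a n) := Iff.rfl

theorem lox_far {g : G} {o : H} (hg : Loxodromic g o) :
    ∀ R : ℝ, ∃ N : ℕ, ∀ n ≥ N, R ≤ dist o (g ^ n • o) := by
  obtain ⟨c, hc, h⟩ := hg
  intro R
  obtain ⟨N, hN⟩ := exists_nat_gt (R / c)
  refine ⟨N, fun n hn => ?_⟩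
  have h1 := (div_lt_iff₀ hc).mp hN
  have h2 := h n
  have h3 : (N : ℝ) ≤ n := by exact_mod_cast hn
  nlinarith

/-- two independent loxodromic elements and a generating set of involutions give two involutions
with loxodromic product -/
theorem exists_lox_product {δ : ℝ} (hδ : FourPoint H δ) (hd : 0 ≤ δ) {g h : G} {o : H}
    (hg : Loxodromic g o) (hh : Loxodromic h o) (hI : Independent g h o)
    (hgen : Subgroup.closure {g : G | g * g = 1} = ⊤) :
    ∃ i j : G, i * i = 1 ∧ j * j = 1 ∧ Loxodromic (i * j) o := by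
  obtain ⟨C0', hC0'⟩ := hI
  obtain ⟨C0, hC0, hC00⟩ : ∃ C0 : ℝ, (∀ m n : ℤ, gromovProd o (g ^ m • o) (h ^ n • o) ≤ C0) ∧
      0 ≤ C0 := ⟨max C0' 0, fun m n => le_trans (hC0' m n) (le_max_left _ _), le_max_right _ _⟩
  have hga := lox_far hg
  have hha := lox_far hh
  -- step 1: some involution does not fix the attracting end of `g`
  have step1 : ∃ i : G, i * i = 1 ∧ i ∉ endFix (G := G) hδ o (fun n => g ^ n • o) hga := by
    by_contra hcon
    push Not at hcon
    have htop : endFix (G := G) hδ o (fun n => g ^ n • o) hga = ⊤ := by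
      rw [eq_top_iff, ← hgen, Subgroup.closure_le]
      intro x hx
      exact hcon x hx
    obtain ⟨m, hm⟩ := hha (2 * C0 + δ + 1)
    have hm := hm m le_rfl
    have hmem : h ^ m ∈ endFix (G := G) hδ o (fun n => g ^ n • o) hga := by
      rw [htop]; exact Subgroup.mem_top _
    rw [mem_endFix] at hmem
    obtain ⟨N, hN⟩ := hmem (C0 + δ + 1)
    have e1 : C0 + δ + 1 ≤ gromovProd o (g ^ N • o) (h ^ m • g ^ N • o) := hN N le_rfl
    have e2 : gromovProd o (g ^ N • o) (h ^ m • o) ≤ C0 := by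
      have := hC0 (N : ℤ) (m : ℤ)
      simpa using this
    have e3 : gromovProd (h ^ m • o) (h ^ m • g ^ N • o) o ≤ C0 := by
      have e4 : gromovProd (h ^ m • o) (h ^ m • g ^ N • o) o =
          gromovProd o (g ^ N • o) ((h ^ m)⁻¹ • o) := by
        rw [← gp_smul (h ^ m) o (g ^ N • o) ((h ^ m)⁻¹ • o), smul_inv_smul]
      rw [e4]
      have := hC0 (N : ℤ) (-(m : ℤ))
      simpa using this
    have e5 := gp_add o (h ^ m • g ^ N • o) (h ^ m • o)
    have e6 : dist o (h ^ m • o) - C0 ≤ gromovProd o (h ^ m • g ^ N • o) (h ^ m • o) := by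
      linarith
    have e7 := gp_small hδ (o := o) (a := g ^ N • o) (b := h ^ m • g ^ N • o) (c := h ^ m • o)
      e2 (by linarith)
    linarith
  obtain ⟨i, hi, hiK⟩ := step1
  rw [mem_endFix] at hiK
  push Not at hiK
  obtain ⟨R', hR'⟩ := hiK
  obtain ⟨R, hR, hRR⟩ : ∃ R : ℝ, R' ≤ R ∧ 0 ≤ R := ⟨max R' 0, le_max_left _ _, le_max_right _ _⟩
  have hi' : i⁻¹ = i := by
    rw [inv_eq_iff_mul_eq_one]
    exact hi
  -- step 2
  obtain ⟨N0, hN0⟩ := hga (C0 + dist o (i • o) + R + 2 * δ + 1)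
  obtain ⟨n, hn, hn2⟩ := hR' N0
  have hE := hN0 n hn
  have hn3 : gromovProd o (g ^ n • o) (i • g ^ n • o) ≤ R := by
    have : gromovProd o (g ^ n • o) (i • g ^ n • o) < R' := hn2
    linarith
  set E : ℝ := dist o (g ^ n • o) with hEdef
  set D : ℝ := dist o (i • o) with hDdef
  have hD0 : 0 ≤ D := dist_nonneg
  have hE0 : 0 ≤ E := dist_nonneg
  have s1 : ∀ m : ℤ, E - C0 ≤ gromovProd o (g ^ n • o) (g ^ n • h ^ m • o) := by
    intro m
    have e1 := gp_add o (g ^ n • h ^ m • o) (g ^ n • o)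
    have e2 : gromovProd (g ^ n • o) (g ^ n • h ^ m • o) o =
        gromovProd o (h ^ m • o) ((g ^ n)⁻¹ • o) := by
      rw [← gp_smul (g ^ n) o (h ^ m • o) ((g ^ n)⁻¹ • o), smul_inv_smul]
    have e3 : gromovProd o (h ^ m • o) ((g ^ n)⁻¹ • o) ≤ C0 := by
      rw [gp_comm]
      have := hC0 (-(n : ℤ)) m
      simpa using this
    rw [gp_comm o (g ^ n • o)]
    linarith
  have s2 : ∀ m : ℤ, E - C0 - D ≤ gromovProd o (i • g ^ n • o) (i • g ^ n • h ^ m • o) := by
    intro m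
    have e1 := gp_base (i • o) o (i • g ^ n • o) (i • g ^ n • h ^ m • o)
    rw [gp_smul] at e1
    have e2 := gp_base o (i • o) (i • g ^ n • o) (i • g ^ n • h ^ m • o)
    rw [gp_smul] at e2
    have := s1 m
    linarith
  have s3 : ∀ m k : ℤ, gromovProd o (g ^ n • h ^ m • o) (i • g ^ n • h ^ k • o) ≤ R + 2 * δ := by
    intro m k
    have e1 := gp_small hδ (o := o) (a := g ^ n • o) (b := g ^ n • h ^ m • o)
      (c := i • g ^ n • o) hn3 (by have := s1 m; linarith)
    rw [gp_comm] at e1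
    have e2 := gp_small hδ (o := o) (a := i • g ^ n • o) (b := i • g ^ n • h ^ k • o)
      (c := g ^ n • h ^ m • o) e1 (by have := s2 k; linarith)
    rw [gp_comm] at e2
    linarith
  -- the element f
  set f : G := g ^ n * h * (g ^ n)⁻¹ with hf
  have fz : ∀ m : ℤ, f ^ m = g ^ n * h ^ m * (g ^ n)⁻¹ := by
    intro m
    rw [hf, conj_zpow]
  have dE : dist o ((g ^ n)⁻¹ • o) = E := by
    rw [dist_smul_inv, inv_inv, dist_comm]
  have s4 : ∀ m : ℤ, dist (f ^ m • o) (g ^ n • h ^ m • o) = E := by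
    intro m
    rw [fz, mul_smul, mul_smul, dist_smul, dist_smul, dist_comm, dE]
  have s5 : ∀ m k : ℤ, gromovProd o (f ^ m • o) ((i * f ^ k * i) • o) ≤
      R + 2 * δ + 2 * E + D := by
    intro m k
    have e1 := gp_left o (f ^ m • o) (g ^ n • h ^ m • o) ((i * f ^ k * i) • o)
    rw [s4] at e1
    have e2 := gp_right o (g ^ n • h ^ m • o) ((i * f ^ k * i) • o) (i • g ^ n • h ^ k • o)
    have e3 : dist ((i * f ^ k * i) • o) (i • g ^ n • h ^ k • o) ≤ E + D := by
      rw [mul_smul, mul_smul, dist_smul]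
      have t1 := dist_triangle (f ^ k • i • o) (f ^ k • o) (g ^ n • h ^ k • o)
      rw [s4, dist_smul, dist_comm (i • o) o] at t1
      linarith
    have e4 := s3 m k
    linarith
  -- powers of f go far
  set C1 : ℝ := R + 2 * δ + 2 * E + D with hC1
  set L : ℝ := 2 * C1 + 2 * δ + 1 with hL
  obtain ⟨M, hM⟩ := hha (L + 2 * E + 2 * D)
  have hM := hM M le_rfl
  have s6 : L + 2 * D ≤ dist o (f ^ (M : ℤ) • o) := by
    have t1 := dist_triangle o ((g ^ n)⁻¹ • o) (h ^ M • o)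
    have t2 : dist o (f ^ (M : ℤ) • o) = dist ((g ^ n)⁻¹ • o) (h ^ M • (g ^ n)⁻¹ • o) := by
      rw [fz, mul_smul, mul_smul, dist_smul_inv, zpow_natCast]
    have t3 := dist_triangle ((g ^ n)⁻¹ • o) (h ^ M • (g ^ n)⁻¹ • o) (h ^ M • o)
    rw [dist_smul, dist_comm ((g ^ n)⁻¹ • o) o, dE] at t3
    rw [dE] at t1
    rw [t2]
    linarith
  have s7 : L ≤ dist o ((i * f ^ (M : ℤ) * i) • o) := by
    have t1 : dist o ((i * f ^ (M : ℤ) * i) • o) = dist (i • o) (f ^ (M : ℤ) • i • o) := by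
      rw [mul_smul, mul_smul, dist_smul_inv, hi']
    have t2 := dist_triangle o (i • o) (f ^ (M : ℤ) • o)
    have t3 := dist_triangle (i • o) (f ^ (M : ℤ) • i • o) (f ^ (M : ℤ) • o)
    rw [dist_smul, dist_comm (i • o) o] at t3
    rw [t1]
    linarith
  refine ⟨i, f ^ (M : ℤ) * i * (f ^ (M : ℤ))⁻¹, hi, ?_, ?_⟩
  · have : f ^ (M : ℤ) * i * (f ^ (M : ℤ))⁻¹ * (f ^ (M : ℤ) * i * (f ^ (M : ℤ))⁻¹) =
      f ^ (M : ℤ) * (i * i) * (f ^ (M : ℤ))⁻¹ := by group
    rw [this, hi]; group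
  · have e0 : i * (f ^ (M : ℤ) * i * (f ^ (M : ℤ))⁻¹) =
        (i * f ^ (M : ℤ) * i) * (f ^ (M : ℤ))⁻¹ := by group
    rw [e0]
    have p1 : gromovProd o ((i * f ^ (M : ℤ) * i)⁻¹ • o) ((f ^ (M : ℤ))⁻¹ • o) ≤ C1 := by
      have e1 : (i * f ^ (M : ℤ) * i)⁻¹ = i * f ^ (-(M : ℤ)) * i := by
        rw [mul_inv_rev, mul_inv_rev, hi', zpow_neg, mul_assoc]
      rw [e1, ← zpow_neg, gp_comm]
      exact s5 _ _
    have p2 : gromovProd o ((f ^ (M : ℤ))⁻¹⁻¹ • o) ((i * f ^ (M : ℤ) * i) • o) ≤ C1 := by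
      rw [inv_inv]
      exact s5 _ _
    have p4 : L ≤ dist o ((f ^ (M : ℤ))⁻¹ • o) := by
      rw [dist_smul_inv, inv_inv, dist_comm]
      linarith
    have hlt : 2 * C1 + 2 * δ < L := by rw [hL]; linarith
    refine ⟨L - 2 * C1 - 2 * δ, by linarith, fun k => ?_⟩
    exact pingpong hδ hd hlt p1 p2 s7 p4 k

end Pool.Agent.Helper14.S2T
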