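import Pool.Agent.Helper14.S2T.Basic
import Pool.Agent.Helper14.S2T.Hyp

/-! Real trees: fixed points of isometries, Helly property, finite generation by involutions. -/

set_option autoImplicit false

namespace Pool.Agent.Helper14.S2T

universe u v w

/-- a real tree: a geodesic metric space (any two points have, for every `r` between `0` and
their distance, a point at distance `r` from the first one on a shortest path to the second one)
that satisfies the four point condition with constant `0` -/
def IsRealTree (T : Type w) [MetricSpace T] : Prop :=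
  (∀ x y : T, ∀ r : ℝ, 0 ≤ r → r ≤ dist x y → ∃ z : T, dist x z = r ∧ dist z y = dist x y - r) ∧
    FourPoint T 0

section metric

variable {T : Type w} [MetricSpace T]

theorem exists_mid (hT : IsRealTree T) (x y : T) :
    ∃ m : T, dist x m = dist x y / 2 ∧ dist m y = dist x y / 2 := by
  obtain ⟨m, h1, h2⟩ := hT.1 x y (dist x y / 2) (by positivity)
    (by have := dist_nonneg (x := x) (y := y); linarith)
  exact ⟨m, h1, by rw [h2]; ring⟩

/-- points of a segment are determined by their distances to the ends -/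
theorem seg_unique (hT : IsRealTree T) {x y m m' : T} (h : dist x m + dist m y = dist x y)
    (h1 : dist x m' = dist x m) (h2 : dist m' y = dist m y) : m' = m := by
  have h3 := hT.2 x y m m'
  rw [dist_comm y m', dist_comm y m, h1, h2, h, max_self] at h3
  have h4 : dist m m' ≤ 0 := by linarith
  have h5 : dist m m' = 0 := le_antisymm h4 dist_nonneg
  exact (dist_eq_zero.mp h5).symm

/-- a set that contains the segments between its points -/
def SegConvex (F : Set T) : Prop :=
  ∀ a ∈ F, ∀ b ∈ F, ∀ m : T, dist a m + dist m b = dist a b → m ∈ F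

theorem SegConvex.inter {F E : Set T} (hF : SegConvex F) (hE : SegConvex E) :
    SegConvex (F ∩ E) :=
  fun a ha b hb m hm => ⟨hF a ha.1 b hb.1 m hm, hE a ha.2 b hb.2 m hm⟩

theorem helly3 (hT : IsRealTree T) {F1 F2 F3 : Set T} (h1 : SegConvex F1) (h2 : SegConvex F2)
    (h3 : SegConvex F3) (h12 : (F1 ∩ F2).Nonempty) (h23 : (F2 ∩ F3).Nonempty)
    (h13 : (F1 ∩ F3).Nonempty) : (F1 ∩ F2 ∩ F3).Nonempty := by
  obtain ⟨a, ha1, ha2⟩ := h12
  obtain ⟨b, hb2, hb3⟩ := h23
  obtain ⟨c, hc1, hc3⟩ := h13
  -- the median of a, b, c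
  obtain ⟨m, hm1, hm2⟩ := hT.1 a b (gromovProd a b c) (gp_nonneg _ _ _) (by
    have := gp_add a c b
    have h5 := gp_nonneg b c a
    rw [gp_comm a c b] at this
    linarith)
  have e1 : dist a m + dist m b = dist a b := by rw [hm1, hm2]; ring
  have h4 := hT.2 a b m c
  have e2 : dist a m + dist b c = (dist a b + dist a c + dist b c) / 2 := by
    rw [hm1]; unfold gromovProd; ring
  have e3 : dist a c + dist b m = (dist a b + dist a c + dist b c) / 2 := by
    rw [dist_comm b m, hm2]; unfold gromovProd; ring
  rw [e2, e3, max_self] at h4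
  have t1 := dist_triangle a m c
  have t2 := dist_triangle b m c
  rw [dist_comm b m, hm2] at t2
  rw [hm1] at t1
  unfold gromovProd at t1 t2 hm1 hm2
  have e4 : dist a m + dist m c = dist a c := by linarith
  have e5 : dist b m + dist m c = dist b c := by
    rw [dist_comm b m]; linarith
  refine ⟨m, ⟨?_, ?_⟩, ?_⟩
  · exact h1 a ha1 c hc1 m e4
  · exact h2 a ha2 b hb2 m e1
  · exact h3 b hb3 c hc3 m e5

theorem helly (hT : IsRealTree T) {ι : Type v} [DecidableEq ι] (F : ι → Set T)
    (hF : ∀ j, SegConvex (F j)) (J : Finset ι) :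
    ∀ C : Set T, SegConvex C → C.Nonempty → (∀ j ∈ J, (C ∩ F j).Nonempty) →
      (∀ j ∈ J, ∀ k ∈ J, (F j ∩ F k).Nonempty) → ∃ z ∈ C, ∀ j ∈ J, z ∈ F j := by
  induction J using Finset.induction_on with
  | empty =>
    intro C _ ⟨z, hz⟩ _ _
    exact ⟨z, hz, by simp⟩
  | insert a J _ ih =>
    intro C hC _ h1 h2
    obtain ⟨z, hz, hz2⟩ := ih (C ∩ F a) (hC.inter (hF a)) (h1 a (Finset.mem_insert_self _ _))
      (fun j hj => helly3 hT hC (hF a) (hF j) (h1 a (Finset.mem_insert_self _ _))
        (h2 a (Finset.mem_insert_self _ _) j (Finset.mem_insert_of_mem hj))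
        (h1 j (Finset.mem_insert_of_mem hj)))
      (fun j hj k hk => h2 j (Finset.mem_insert_of_mem hj) k (Finset.mem_insert_of_mem hk))
    refine ⟨z, hz.1, fun j hj => ?_⟩
    rcases Finset.mem_insert.mp hj with h | h
    · rw [h]; exact hz.2
    · exact hz2 j h

end metric

section act

variable {G : Type u} [Group G] {T : Type w} [MetricSpace T] [MulAction G T]
  [IsIsometricSMul G T]

theorem fix_convex (hT : IsRealTree T) (g : G) : SegConvex {z : T | g • z = z} := by
  intro a ha b hb m hm
  have ha' : g • a = a := ha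
  have hb' : g • b = b := hb
  refine seg_unique hT hm ?_ ?_
  · conv_lhs => rw [← ha']
    rw [dist_smul]
  · conv_lhs => rw [← hb']
    rw [dist_smul]

/-- an isometry conjugate to its square fixes the midpoint between a point and its image -/
theorem exists_fix (hT : IsRealTree T) {s k : G} (hk : k * s * k⁻¹ = s ^ 2) (o : T) :
    ∃ m : T, s • m = m := by
  obtain ⟨m, h1, h2⟩ := exists_mid hT o (s • o)
  refine ⟨m, ?_⟩
  by_contra hne
  have hτ : 0 < dist m (s • m) := dist_pos.mpr (Ne.symm hne)
  set D : ℝ := dist o (s • o) with hD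
  have e1 : dist (s • o) (s • m) = D / 2 := by rw [dist_smul, h1]
  have e2 : dist (s • m) (s • s • o) = D / 2 := by rw [dist_smul, h2]
  have e3 : dist (s • o) (s • s • o) = D := by rw [dist_smul]
  have e4 : dist (s • s • o) (s • s • m) = D / 2 := by rw [dist_smul, dist_smul, h1]
  have e5 : dist (s • m) (s • s • m) = dist m (s • m) := by rw [dist_smul]
  have g1 : gromovProd (s • m) (s • o) (s • s • o) ≤ 0 := by
    unfold gromovProd
    rw [dist_comm (s • m) (s • o), e1, e2, e3]; linarith
  have g2 : 0 + (0 : ℝ) < gromovProd (s • m) (s • o) m := by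
    unfold gromovProd
    rw [dist_comm (s • m) (s • o), e1, dist_comm (s • m) m, dist_comm (s • o) m, h2]; linarith
  have g3 := gp_small hT.2 g1 g2
  rw [gp_comm, add_zero] at g3
  have g4 : 0 + (0 : ℝ) < gromovProd (s • m) (s • s • o) (s • s • m) := by
    unfold gromovProd
    rw [e2, e5, e4]; linarith
  have g5 := gp_small hT.2 g3 g4
  rw [gp_comm, add_zero] at g5
  -- chain
  have hchain : ∀ n : ℕ, dist m (s • m) * n - 0 ≤ dist m (s ^ n • m) := by
    intro n
    have h := chain hT.2 (C := 0) (L := dist m (s • m)) (fun k => s ^ k • m) ?_ le_rfl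
      (by simpa using hτ) ?_ n
    · simpa using h
    · intro k
      have f1 : s ^ (k + 1) • m = s ^ k • (s • m) := by rw [pow_succ, mul_smul]
      have f2 : s ^ (k + 2) • m = s ^ k • (s • s • m) := by
        rw [pow_add, mul_smul, pow_two, mul_smul]
      show gromovProd (s ^ (k + 1) • m) (s ^ k • m) (s ^ (k + 2) • m) ≤ 0
      rw [f1, f2, gp_smul]
      exact g5
    · intro k
      show dist m (s • m) ≤ dist (s ^ k • m) (s ^ (k + 1) • m)
      rw [pow_succ, mul_smul, dist_smul]
  exact no_lin hk m _ 0 hτ hchain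

/-- two involutions with elliptic product have a common fixed point -/
theorem common_fix (hT : IsRealTree T) {i j : G} (hi : i * i = 1) (hj : j * j = 1) {p : T}
    (hp : (i * j) • p = p) : ∃ m : T, i • m = m ∧ j • m = m := by
  have hi' : i⁻¹ = i := by
    rw [inv_eq_iff_mul_eq_one]
    exact hi
  have e1 : j • p = i • p := by
    have : j • p = i⁻¹ • ((i * j) • p) := by rw [mul_smul, inv_smul_smul]
    rw [this, hp, hi']
  obtain ⟨m, h1, h2⟩ := exists_mid hT p (i • p)
  have h3 : dist p m + dist m (i • p) = dist p (i • p) := by rw [h1, h2]; ring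
  refine ⟨m, ?_, ?_⟩
  · refine seg_unique hT h3 ?_ ?_
    · have : dist p (i • m) = dist (i • p) m := by rw [dist_smul_inv, hi']
      rw [this, dist_comm, h1, h2]
    · rw [dist_smul, dist_comm, h1, h2]
  · refine seg_unique hT h3 ?_ ?_
    · have : dist p (j • m) = dist (j • p) m := by
        rw [dist_smul_inv]
        congr 2
        rw [inv_eq_iff_mul_eq_one]
        exact hj
      rw [this, e1, dist_comm, h1, h2]
    · rw [← e1, dist_smul, dist_comm, h1, e1, h2]

end act

/-- a finitely generated group generated by a set is generated by a finite subset -/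
theorem fin_gen {G : Type u} [Group G] {I : Set G} (hI : Subgroup.closure I = ⊤)
    (hG : Group.FG G) : ∃ J : Finset G, (∀ j ∈ J, j ∈ I) ∧ Subgroup.closure (J : Set G) = ⊤ := by
  classical
  have key : ∀ s : G, ∃ J : Finset G, (∀ j ∈ J, j ∈ I) ∧ s ∈ Subgroup.closure (J : Set G) := by
    intro s
    have hs : s ∈ Subgroup.closure I := by rw [hI]; exact Subgroup.mem_top _
    induction hs using Subgroup.closure_induction with
    | mem x hx =>
      exact ⟨{x}, by simpa using hx, Subgroup.subset_closure (by simp)⟩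
    | one => exact ⟨∅, by simp, one_mem _⟩
    | mul x y _ _ hx hy =>
      obtain ⟨J1, h1, h2⟩ := hx
      obtain ⟨J2, h3, h4⟩ := hy
      refine ⟨J1 ∪ J2, ?_, ?_⟩
      · intro j hj
        rcases Finset.mem_union.mp hj with h | h
        · exact h1 j h
        · exact h3 j h
      · exact mul_mem (Subgroup.closure_mono (by simp) h2) (Subgroup.closure_mono (by simp) h4)
    | inv x _ hx =>
      obtain ⟨J1, h1, h2⟩ := hx
      exact ⟨J1, h1, inv_mem h2⟩
  choose J hJ1 hJ2 using key
  obtain ⟨S, hS⟩ := hG.out
  refine ⟨S.biUnion J, ?_, ?_⟩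
  · intro j hj
    obtain ⟨s, -, hs⟩ := Finset.mem_biUnion.mp hj
    exact hJ1 s j hs
  · rw [eq_top_iff, ← hS, Subgroup.closure_le]
    intro s hs
    refine Subgroup.closure_mono ?_ (hJ2 s)
    intro x hx
    exact Finset.mem_coe.mpr (Finset.mem_biUnion.mpr ⟨s, hs, hx⟩)

end Pool.Agent.Helper14.S2T
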